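import Pool.Agent.H816R3.Dense

set_option autoImplicit false

open Set Filter Topology
open scoped BoundedContinuousFunction

namespace Pool.Agent.H816R3

variable {G : Type} [TopologicalSpace G] [Group G] [IsTopologicalGroup G]

theorem right_unif {φ : G → ℝ} (hc : Continuous φ) (hs : HasCompactSupport φ) {ε : ℝ}
    (hε : 0 < ε) : ∃ W ∈ 𝓝 (1 : G), ∀ u ∈ W, ∀ g : G, |φ (u * g) - φ g| < ε := by
  letI := IsTopologicalGroup.rightUniformSpace G
  have h1 : UniformContinuous φ := hs.uniformContinuous_of_continuous hc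
  rw [uniformContinuous_def] at h1
  have h2 := h1 _ (Metric.dist_mem_uniformity hε)
  rw [uniformity_eq_comap_nhds_one'] at h2
  obtain ⟨W, hW, hWs⟩ := h2
  refine ⟨W, hW, fun u hu g => ?_⟩
  have h3 : ((g, u * g) : G × G) ∈ (fun p : G × G => p.2 * p.1⁻¹) ⁻¹' W := by
    simpa using hu
  have h4 := hWs h3
  simp only [Set.mem_setOf_eq] at h4
  rw [abs_sub_comm]
  exact h4

theorem iSup_close {S : Type} {a b : S → ℝ} {ε : ℝ} (hε : 0 ≤ ε) (hb : ∀ s, b s ∈ Icc (0 : ℝ) 1)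
    (h : ∀ s, |a s - b s| ≤ ε) : (⨆ s, a s) ≤ (⨆ s, b s) + ε := by
  rcases isEmpty_or_nonempty S with hS | hS
  · rw [Real.iSup_of_isEmpty, Real.iSup_of_isEmpty]; linarith
  · refine ciSup_le fun s => ?_
    have h1 : b s ≤ ⨆ s, b s := le_ciSup ⟨1, by rintro _ ⟨t, rfl⟩; exact (hb t).2⟩ s
    have h2 := (abs_le.1 (h s)).2
    linarith

/-- the sum of translated bump functions (as a supremum) -/
theorem exists_bump {I : Type} (x : I → G) (S : Set I) (φ : C(G, ℝ))
    (h01 : ∀ g, φ g ∈ Icc (0 : ℝ) 1) (hs : HasCompactSupport φ) :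
    ∃ f : RUC G, ∀ g, f.1 g = ((⨆ i : S, φ (g * (x i)⁻¹) : ℝ) : ℂ) := by
  have hF : ∀ ε : ℝ, 0 < ε → ∃ W ∈ 𝓝 (1 : G), ∀ u ∈ W, ∀ g : G,
      |(⨆ i : S, φ (u * g * (x i)⁻¹)) - (⨆ i : S, φ (g * (x i)⁻¹))| ≤ ε := by
    intro ε hε
    obtain ⟨W, hW, h⟩ := right_unif φ.continuous hs hε
    refine ⟨W, hW, fun u hu g => ?_⟩
    have h1 : ∀ i : S, |φ (u * g * (x i)⁻¹) - φ (g * (x i)⁻¹)| ≤ ε := by
      intro i
      have := h u hu (g * (x i)⁻¹)
      rw [← mul_assoc] at this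
      exact this.le
    rw [abs_le]
    constructor
    · have := iSup_close hε.le (fun i : S => h01 (u * g * (x i)⁻¹))
        (fun i : S => by rw [abs_sub_comm]; exact h1 i)
      linarith
    · have := iSup_close hε.le (fun i : S => h01 (g * (x i)⁻¹)) h1
      linarith
  have hcont : Continuous fun g : G => (⨆ i : S, φ (g * (x i)⁻¹)) := by
    rw [continuous_iff_continuousAt]
    intro g
    rw [ContinuousAt, Metric.tendsto_nhds]
    intro ε hε
    obtain ⟨W, hW, h⟩ := hF (ε / 2) (by positivity)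
    have h1 : Tendsto (fun h : G => h * g⁻¹) (𝓝 g) (𝓝 1) := by
      have : Continuous fun h : G => h * g⁻¹ := by fun_prop
      simpa using this.tendsto g
    filter_upwards [h1 hW] with h' hh'
    rw [Real.dist_eq]
    have := h _ hh' g
    simp only [inv_mul_cancel_right] at this
    linarith
  have hbd : ∀ g : G, ‖((⨆ i : S, φ (g * (x i)⁻¹) : ℝ) : ℂ)‖ ≤ 1 := by
    intro g
    rw [Complex.norm_real, Real.norm_eq_abs, abs_le]
    constructor
    · have : 0 ≤ ⨆ i : S, φ (g * (x i)⁻¹) := Real.iSup_nonneg fun i => (h01 _).1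
      linarith
    · exact Real.iSup_le (fun i => (h01 _).2) zero_le_one
  refine ⟨⟨BoundedContinuousFunction.ofNormedAddCommGroup
    (fun g : G => ((⨆ i : S, φ (g * (x i)⁻¹) : ℝ) : ℂ))
    (Complex.continuous_ofReal.comp hcont) 1 hbd, ?_⟩, fun g => rfl⟩
  intro ε hε
  obtain ⟨W, hW, h⟩ := hF (ε / 2) (by positivity)
  refine ⟨W, hW, fun u hu g => ?_⟩
  have h1 := h u hu g
  change ‖((⨆ i : S, φ (u * g * (x i)⁻¹) : ℝ) : ℂ) - ((⨆ i : S, φ (g * (x i)⁻¹) : ℝ) : ℂ)‖ < ε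
  rw [← Complex.ofReal_sub, Complex.norm_real, Real.norm_eq_abs]
  linarith

/-- value of the bump on the points of a separated family -/
theorem bump_value {I : Type} (x : I → G) (S : Set I) (φ : C(G, ℝ))
    (h01 : ∀ g, φ g ∈ Icc (0 : ℝ) 1) (N : Set G) (hN : ∀ g, g ∉ N → φ g = 0)
    (hsep : ∀ i j g, g * (x i)⁻¹ ∈ N → g * (x j)⁻¹ ∈ N → i = j) (k : G) (hk : k ∈ N) (i : I) :
    (i ∈ S → (⨆ j : S, φ (k * x i * (x j)⁻¹)) = φ k) ∧
    (i ∉ S → (⨆ j : S, φ (k * x i * (x j)⁻¹)) = 0) := by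
  have hz : ∀ j, j ≠ i → φ (k * x i * (x j)⁻¹) = 0 := by
    intro j hj
    apply hN
    intro hcon
    apply hj
    refine hsep j i (k * x i) hcon ?_
    simpa using hk
  constructor
  · intro hi
    apply le_antisymm
    · haveI : Nonempty S := ⟨⟨i, hi⟩⟩
      refine ciSup_le fun j => ?_
      by_cases hj : j.1 = i
      · rw [hj]; simp
      · rw [hz j.1 hj]; exact (h01 k).1
    · have h1 : φ (k * x i * (x i)⁻¹) ≤ ⨆ j : S, φ (k * x i * (x j)⁻¹) :=
        le_ciSup (f := fun j : S => φ (k * x i * (x j)⁻¹))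
          ⟨1, by rintro _ ⟨t, rfl⟩; exact (h01 _).2⟩ ⟨i, hi⟩
      simpa using h1
  · intro hi
    have h1 : ∀ j : S, φ (k * x i * (x j)⁻¹) = 0 := by
      intro j
      apply hz
      rintro rfl
      exact hi j.2
    simp only [h1]
    exact Real.iSup_const_zero

end Pool.Agent.H816R3
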