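import Mathlib

set_option autoImplicit false

open Set Filter Topology
open scoped Pointwise

namespace Pool.Agent.H816R3

/-- colouring of a relation of bounded degree -/
theorem exists_colouring {I : Type} (r : I → I → Prop) (hr : ∀ i j, r i j → r j i) (m : ℕ) :
    ∀ J : Set I, (∀ i ∈ J, Set.encard {j | j ∈ J ∧ j ≠ i ∧ r i j} ≤ m) →
      ∃ c : I → ℕ, (∀ i, c i ≤ m) ∧ ∀ i ∈ J, ∀ j ∈ J, i ≠ j → r i j → c i ≠ c j := by
  classical
  induction m with
  | zero =>
    intro J hJ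
    refine ⟨fun _ => 0, fun _ => le_rfl, ?_⟩
    intro i hi j hj hij hrij
    have h1 := hJ i hi
    simp only [Nat.cast_zero, nonpos_iff_eq_zero, Set.encard_eq_zero] at h1
    have h2 : j ∈ {j | j ∈ J ∧ j ≠ i ∧ r i j} := ⟨hj, hij.symm, hrij⟩
    rw [h1] at h2
    exact absurd h2 (Set.notMem_empty _)
  | succ m ih =>
    intro J hJ
    obtain ⟨A, hA⟩ := zorn_subset {A : Set I | A ⊆ J ∧ ∀ a ∈ A, ∀ b ∈ A, a ≠ b → ¬ r a b} (by
      intro C hC hchain
      refine ⟨⋃₀ C, ⟨?_, ?_⟩, fun s hs => Set.subset_sUnion_of_mem hs⟩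
      · exact Set.sUnion_subset fun s hs => (hC hs).1
      · rintro a ⟨s, hs, has⟩ b ⟨t, ht, hbt⟩ hab
        rcases hchain.total hs ht with hst | hst
        · exact (hC ht).2 a (hst has) b hbt hab
        · exact (hC hs).2 a has b (hst hbt) hab)
    have hAJ : A ⊆ J := hA.prop.1
    have hAr := hA.prop.2
    have hdom : ∀ i ∈ J, i ∉ A → ∃ a ∈ A, r i a := by
      intro i hi hiA
      by_contra hcon
      push Not at hcon
      have h1 : insert i A ∈ {A : Set I | A ⊆ J ∧ ∀ a ∈ A, ∀ b ∈ A, a ≠ b → ¬ r a b} := by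
        refine ⟨Set.insert_subset hi hAJ, ?_⟩
        rintro a (rfl | ha) b (rfl | hb) hab
        · exact absurd rfl hab
        · exact hcon b hb
        · exact fun h => hcon a ha (hr _ _ h)
        · exact hAr a ha b hb hab
      have h2 := hA.le_of_ge h1 (Set.subset_insert i A)
      exact hiA (h2 (Set.mem_insert i A))
    obtain ⟨c, hc, hcc⟩ := ih (J \ A) (by
      intro i hi
      obtain ⟨a, ha, hra⟩ := hdom i hi.1 hi.2
      have h1 : insert a {j | j ∈ J \ A ∧ j ≠ i ∧ r i j} ⊆ {j | j ∈ J ∧ j ≠ i ∧ r i j} := by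
        rintro j (rfl | hj)
        · exact ⟨hAJ ha, fun h => hi.2 (h ▸ ha), hra⟩
        · exact ⟨hj.1.1, hj.2.1, hj.2.2⟩
      have h2 := (Set.encard_le_encard h1).trans (hJ i hi.1)
      rw [Set.encard_insert_of_notMem (fun h => h.1.2 ha)] at h2
      push_cast at h2
      exact (ENat.add_le_add_iff_right ENat.one_ne_top).1 h2)
    refine ⟨fun i => if i ∈ A then m + 1 else c i, ?_, ?_⟩
    · intro i
      dsimp only
      split_ifs
      · exact le_rfl
      · exact (hc i).trans (Nat.le_succ m)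
    · intro i hi j hj hij hrij
      dsimp only
      by_cases hiA : i ∈ A
      · by_cases hjA : j ∈ A
        · exact absurd hrij (hAr i hiA j hjA hij)
        · rw [if_pos hiA, if_neg hjA]
          have := hc j
          omega
      · by_cases hjA : j ∈ A
        · rw [if_neg hiA, if_pos hjA]
          have := hc i
          omega
        · rw [if_neg hiA, if_neg hjA]
          exact hcc i ⟨hi, hiA⟩ j ⟨hj, hjA⟩ hij hrij

variable {G : Type} [TopologicalSpace G] [Group G] [IsTopologicalGroup G]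

/-- A locally compact group is a finite union of sets `K * {x i : c i = a}`, with `K` compact,
such that for every colour the translates `N * x i` of an open neighbourhood `N` of `K` are
pairwise disjoint. -/
theorem exists_decomposition [LocallyCompactSpace G] [T2Space G] :
    ∃ (I : Set G) (K N : Set G) (m : ℕ) (c : G → Fin m), IsCompact K ∧ IsOpen N ∧ K ⊆ N ∧
      (∀ g : G, ∃ x ∈ I, g * x⁻¹ ∈ K) ∧
      (∀ x ∈ I, ∀ y ∈ I, c x = c y → ∀ g, g * x⁻¹ ∈ N → g * y⁻¹ ∈ N → x = y) := by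
  classical
  -- compact symmetric neighbourhood
  obtain ⟨V0, hV0c, hV0⟩ := exists_compact_mem_nhds (1 : G)
  let V : Set G := V0 ∩ V0⁻¹
  have hVc : IsCompact V := by
    refine hV0c.inter_right ?_
    exact hV0c.isClosed.preimage continuous_inv
  have hV : V ∈ 𝓝 (1 : G) := by
    refine inter_mem hV0 ?_
    have : Tendsto (fun g : G => g⁻¹) (𝓝 1) (𝓝 1) := by
      simpa using (continuous_inv (G := G)).tendsto 1
    exact this hV0
  have hVinv : ∀ v ∈ V, v⁻¹ ∈ V := by
    rintro v ⟨h1, h2⟩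
    exact ⟨h2, by simpa using h1⟩
  let K : Set G := V * V
  have hKc : IsCompact K := hVc.mul hVc
  have hKinv : ∀ v ∈ K, v⁻¹ ∈ K := by
    rintro _ ⟨a, ha, b, hb, rfl⟩
    exact ⟨b⁻¹, hVinv b hb, a⁻¹, hVinv a ha, by simp⟩
  obtain ⟨N', hN'c, hKN'⟩ := exists_compact_superset hKc
  let N : Set G := interior N'
  -- maximal separated set
  obtain ⟨I, hI⟩ := zorn_subset {A : Set G | ∀ a ∈ A, ∀ b ∈ A, a * b⁻¹ ∈ K → a = b} (by
      intro C hC hchain
      refine ⟨⋃₀ C, ?_, fun s hs => Set.subset_sUnion_of_mem hs⟩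
      rintro a ⟨s, hs, has⟩ b ⟨t, ht, hbt⟩ hab
      rcases hchain.total hs ht with hst | hst
      · exact hC ht a (hst has) b hbt hab
      · exact hC hs a has b (hst hbt) hab)
  have hIsep : ∀ a ∈ I, ∀ b ∈ I, a * b⁻¹ ∈ K → a = b := hI.prop
  have h1V : (1 : G) ∈ V := mem_of_mem_nhds hV
  have h1K : (1 : G) ∈ K := ⟨1, h1V, 1, h1V, by simp⟩
  have hIcov : ∀ g : G, ∃ x ∈ I, g * x⁻¹ ∈ K := by
    intro g
    by_contra hcon
    push Not at hcon
    have hgI : g ∉ I := fun h => hcon g h (by simpa using h1K)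
    have h1 : insert g I ∈ {A : Set G | ∀ a ∈ A, ∀ b ∈ A, a * b⁻¹ ∈ K → a = b} := by
      rintro a (rfl | ha) b (rfl | hb) hab
      · rfl
      · exact absurd hab (hcon b hb)
      · exfalso
        apply hcon a ha
        have := hKinv _ hab
        simpa using this
      · exact hIsep a ha b hb hab
    have h2 := hI.le_of_ge h1 (Set.subset_insert g I)
    exact hgI (h2 (Set.mem_insert g I))
  -- bounded degree
  let L : Set G := N'⁻¹ * N'
  have hLc : IsCompact L := hN'c.inv.mul hN'c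
  have hLinv : ∀ v ∈ L, v⁻¹ ∈ L := by
    rintro _ ⟨a, ha, b, hb, rfl⟩
    exact ⟨b⁻¹, by simpa using hb, a⁻¹, ha, by simp⟩
  obtain ⟨t, htL, htcov⟩ := hLc.elim_nhds_subcover (fun y => (fun g => g * y⁻¹) ⁻¹' V) (by
    intro y _
    have h1 : Tendsto (fun g : G => g * y⁻¹) (𝓝 y) (𝓝 1) := by
      have : Continuous fun g : G => g * y⁻¹ := by fun_prop
      simpa using this.tendsto y
    exact h1 hV)
  have hdeg : ∀ x ∈ I, Set.encard {y | y ∈ I ∧ y ≠ x ∧ x * y⁻¹ ∈ L} ≤ t.card := by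
    intro x _
    have hsel : ∀ y ∈ {y | y ∈ I ∧ y ≠ x ∧ x * y⁻¹ ∈ L}, ∃ z ∈ t, y * x⁻¹ * z⁻¹ ∈ V := by
      rintro y ⟨_, _, hy⟩
      have h1 : y * x⁻¹ ∈ L := by
        have := hLinv _ hy
        simpa using this
      have h2 := htcov h1
      simp only [Set.mem_iUnion] at h2
      obtain ⟨z, hz, h3⟩ := h2
      exact ⟨z, hz, h3⟩
    choose! z hzt hzV using hsel
    rw [← Set.encard_coe_eq_coe_finsetCard]
    refine Set.encard_le_encard_of_injOn (f := z) (fun y hy => hzt y hy) ?_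
    intro y hy y' hy' hzz
    have h1 := hzV y hy
    have h2 := hzV y' hy'
    rw [← hzz] at h2
    refine hIsep y hy.1 y' hy'.1 ?_
    refine ⟨y * x⁻¹ * (z y)⁻¹, h1, (y' * x⁻¹ * (z y)⁻¹)⁻¹, hVinv _ h2, ?_⟩
    group
  obtain ⟨c, hc, hcc⟩ := exists_colouring (fun x y : G => x * y⁻¹ ∈ L) (by
    intro x y h
    have := hLinv _ h
    simpa using this) t.card I hdeg
  refine ⟨I, K, N, t.card + 1, fun g => ⟨c g, Nat.lt_succ_of_le (hc g)⟩, hKc, isOpen_interior,
    hKN', hIcov, ?_⟩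
  intro x hx y hy hcxy g hgx hgy
  by_contra hne
  refine hcc x hx y hy hne ?_ (by simpa using hcxy)
  refine ⟨(g * x⁻¹)⁻¹, ?_, g * y⁻¹, interior_subset hgy, by group⟩
  simpa using interior_subset hgx

end Pool.Agent.H816R3
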