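import Pool.Agent.H816R3.Rep

set_option autoImplicit false

open Set Filter Topology
open scoped BoundedContinuousFunction

namespace Pool.Agent.H816R3

variable {G : Type} [TopologicalSpace G] [Group G]

theorem star_mem_RUC {f : G →ᵇ ℂ} (hf : f ∈ RUC G) : star f ∈ RUC G := by
  intro ε hε
  obtain ⟨W, hW, h⟩ := hf ε hε
  refine ⟨W, hW, fun u hu x => ?_⟩
  have : (star f) (u * x) - (star f) x = star (f (u * x) - f x) := by
    simp [BoundedContinuousFunction.star_apply]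
  rw [this, norm_star]
  exact h u hu x

theorem inv_mem_RUC {F : G →ᵇ ℂ} (hF : F ∈ RUC G) (h1 : ∀ x, 1 ≤ ‖F x‖) :
    ∃ H : G →ᵇ ℂ, H ∈ RUC G ∧ F * H = 1 := by
  have hne : ∀ x, F x ≠ 0 := fun x hx => by
    have := h1 x
    rw [hx, norm_zero] at this
    linarith
  refine ⟨BoundedContinuousFunction.ofNormedAddCommGroup (fun x => (F x)⁻¹)
    (F.continuous.inv₀ hne) 1 (fun x => ?_), ?_, ?_⟩
  · rw [norm_inv]
    exact inv_le_one_of_one_le₀ (h1 x)
  · intro ε hε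
    obtain ⟨W, hW, h⟩ := hF ε hε
    refine ⟨W, hW, fun u hu x => ?_⟩
    change ‖(F (u * x))⁻¹ - (F x)⁻¹‖ < ε
    rw [inv_sub_inv (hne _) (hne _), norm_div, norm_mul]
    have h2 : 1 ≤ ‖F (u * x)‖ * ‖F x‖ := one_le_mul_of_one_le_of_one_le (h1 _) (h1 _)
    have h3 := h u hu x
    rw [norm_sub_rev] at h3
    refine lt_of_le_of_lt ?_ h3
    exact div_le_self (norm_nonneg _) h2
  · ext x
    simp only [BoundedContinuousFunction.coe_mul, Pi.mul_apply,
      BoundedContinuousFunction.coe_ofNormedAddCommGroup, BoundedContinuousFunction.coe_one,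
      Pi.one_apply]
    exact mul_inv_cancel₀ (hne x)

theorem dense_ev : closure (Set.range (ev : G → Amb G)) = Set.univ := by
  refine Set.eq_univ_of_forall fun φ => ?_
  rw [mem_closure_iff]
  intro N hN hφN
  obtain ⟨O, hO, rfl⟩ := isInducing_amb.isOpen_iff.1 hN
  obtain ⟨I, u, hu, hIu⟩ := isOpen_pi_iff.1 hO _ hφN
  by_contra hcon
  rw [Set.not_nonempty_iff_eq_empty, Set.eq_empty_iff_forall_notMem] at hcon
  have hball : ∀ f : RUC G, ∃ ε : ℝ, 0 < ε ∧ (f ∈ I → Metric.ball (φ f) ε ⊆ u f) := by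
    intro f
    by_cases hf : f ∈ I
    · obtain ⟨ε, hε, hb⟩ := Metric.isOpen_iff.1 (hu f hf).1 _ (hu f hf).2
      exact ⟨ε, hε, fun _ => hb⟩
    · exact ⟨1, one_pos, fun h => absurd h hf⟩
  choose ε hε hb using hball
  have hfar : ∀ x : G, ∃ f ∈ I, ε f ≤ ‖f.1 x - φ f‖ := by
    intro x
    by_contra hcx
    push Not at hcx
    refine hcon (ev x) ⟨?_, x, rfl⟩
    apply hIu
    intro f hf
    apply hb f hf
    rw [Metric.mem_ball, dist_eq_norm]
    exact hcx f hf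
  -- the function F
  let g : RUC G → RUC G := fun f => f - algebraMap ℂ (RUC G) (φ f)
  let gs : RUC G → RUC G := fun f => ⟨star (g f).1, star_mem_RUC (g f).2⟩
  let F : RUC G := ∑ f ∈ I, (((ε f)⁻¹ ^ 2 : ℝ) : ℂ) • (g f * gs f)
  have hφg : ∀ f, φ (g f) = 0 := by
    intro f
    change φ (f - algebraMap ℂ (RUC G) (φ f)) = 0
    rw [map_sub, AlgHomClass.commutes]
    simp
  have hφF : φ F = 0 := by
    change φ (∑ f ∈ I, (((ε f)⁻¹ ^ 2 : ℝ) : ℂ) • (g f * gs f)) = 0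
    rw [map_sum]
    refine Finset.sum_eq_zero fun f _ => ?_
    rw [map_smul, map_mul, hφg, zero_mul, smul_zero]
  have hgx : ∀ f (x : G), (g f).1 x = f.1 x - φ f := fun f x => rfl
  have hFx : ∀ x : G, F.1 x = ((∑ f ∈ I, (ε f)⁻¹ ^ 2 * ‖f.1 x - φ f‖ ^ 2 : ℝ) : ℂ) := by
    intro x
    have h1 : F.1 x = ∑ f ∈ I, (((ε f)⁻¹ ^ 2 : ℝ) : ℂ) * ((f.1 x - φ f) * star (f.1 x - φ f)) := by
      have h2 := map_sum (((BoundedContinuousFunction.evalCLM ℂ x).comp
        (RUC G).toSubmodule.subtypeL)) (fun f => (((ε f)⁻¹ ^ 2 : ℝ) : ℂ) • (g f * gs f)) I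
      refine h2.trans ?_
      refine Finset.sum_congr rfl fun f _ => ?_
      rfl
    rw [h1]
    push_cast
    refine Finset.sum_congr rfl fun f _ => ?_
    congr 1
    have := Complex.mul_conj (f.1 x - φ f)
    rw [Complex.normSq_eq_norm_sq] at this
    push_cast at this
    exact this
  have hF1 : ∀ x : G, 1 ≤ ‖F.1 x‖ := by
    intro x
    rw [hFx, Complex.norm_real]
    refine le_trans ?_ (le_abs_self _)
    obtain ⟨f, hf, hfx⟩ := hfar x
    have hpos : ∀ f' ∈ I, 0 ≤ (ε f')⁻¹ ^ 2 * ‖f'.1 x - φ f'‖ ^ 2 := fun f' _ => by positivity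
    refine le_trans ?_ (Finset.single_le_sum hpos hf)
    have h1 : 1 ≤ (ε f)⁻¹ * ‖f.1 x - φ f‖ := by
      rw [inv_mul_eq_div, one_le_div (hε f)]
      exact hfx
    rw [← mul_pow]
    exact one_le_pow₀ h1
  obtain ⟨H, hH, hFH⟩ := inv_mem_RUC F.2 hF1
  have h1 : F * ⟨H, hH⟩ = 1 := Subtype.ext hFH
  have h2 := congrArg φ h1
  rw [map_mul, hφF, zero_mul, map_one] at h2
  exact zero_ne_one h2

end Pool.Agent.H816R3
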