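import Mathlib

set_option autoImplicit false

open Set Filter Topology

namespace Pool.Agent.H816R3

/-- Covering dimension at most `n` (finite open covers, finite open refinements of order at
most `n + 1`). -/
def DimLE (X : Type) [TopologicalSpace X] (n : ℕ) : Prop :=
  ∀ (ι : Type) [Finite ι] (U : ι → Set X), (∀ i, IsOpen (U i)) → (⋃ i, U i) = Set.univ →
    ∃ (κ : Type) (_ : Finite κ) (V : κ → Set X),
      (∀ k, IsOpen (V k)) ∧ (⋃ k, V k) = Set.univ ∧ (∀ k, ∃ i, V k ⊆ U i) ∧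
      ∀ x, Nat.card {k // x ∈ V k} ≤ n + 1

/-- Relative covering dimension of a subset, computed with open sets of the ambient space and
with shrinkings in place of refinements. -/
def RelDim {X : Type} [TopologicalSpace X] (F : Set X) (n : ℕ) : Prop :=
  ∀ (ι : Type) [Finite ι] (U : ι → Set X), (∀ i, IsOpen (U i)) → F ⊆ ⋃ i, U i →
    ∃ V : ι → Set X, (∀ i, IsOpen (V i)) ∧ F ⊆ ⋃ i, V i ∧ (∀ i, V i ⊆ U i) ∧
      ∀ x ∈ F, Nat.card {i // x ∈ V i} ≤ n + 1

theorem relDim_univ_of_dimLE {X : Type} [TopologicalSpace X] {n : ℕ} (h : DimLE X n) :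
    RelDim (Set.univ : Set X) n := by
  intro ι _ U hU hcov
  obtain ⟨κ, hκ, V, hVo, hVc, hVU, hVn⟩ := h ι U hU (Set.eq_univ_of_univ_subset hcov)
  choose φ hφ using hVU
  refine ⟨fun i => ⋃ k, ⋃ (_ : φ k = i), V k, ?_, ?_, ?_, ?_⟩
  · intro i
    exact isOpen_iUnion fun k => isOpen_iUnion fun _ => hVo k
  · intro x _
    have hx : x ∈ ⋃ k, V k := by rw [hVc]; trivial
    obtain ⟨k, hk⟩ := Set.mem_iUnion.1 hx
    exact Set.mem_iUnion.2 ⟨φ k, Set.mem_iUnion.2 ⟨k, Set.mem_iUnion.2 ⟨rfl, hk⟩⟩⟩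
  · intro i x hx
    simp only [Set.mem_iUnion] at hx
    obtain ⟨k, hk, hx⟩ := hx
    rw [← hk]
    exact hφ k hx
  · intro x _
    refine le_trans ?_ (hVn x)
    have hsel : ∀ i : {i // x ∈ ⋃ k, ⋃ (_ : φ k = i), V k}, ∃ k : {k // x ∈ V k}, φ k = i := by
      rintro ⟨i, hi⟩
      simp only [Set.mem_iUnion] at hi
      obtain ⟨k, hk, hx⟩ := hi
      exact ⟨⟨k, hx⟩, hk⟩
    choose g hg using hsel
    haveI : Finite {k // x ∈ V k} := Subtype.finite
    refine Nat.card_le_card_of_injective g ?_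
    intro a b hab
    apply Subtype.ext
    rw [← hg a, ← hg b, hab]

theorem dimLE_of_relDim_univ {X : Type} [TopologicalSpace X] {n : ℕ}
    (h : RelDim (Set.univ : Set X) n) : DimLE X n := by
  intro ι _ U hU hcov
  obtain ⟨V, hVo, hVc, hVU, hVn⟩ := h ι U hU hcov.ge
  exact ⟨ι, inferInstance, V, hVo, Set.eq_univ_of_univ_subset hVc, fun i => ⟨i, hVU i⟩,
    fun x => hVn x trivial⟩

/-- monotonicity for closed subsets -/
theorem RelDim.mono {X : Type} [TopologicalSpace X] {n : ℕ} {F F' : Set X}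
    (h : RelDim F' n) (hF : IsClosed F) (hFF : F ⊆ F') : RelDim F n := by
  intro ι _ U hU hcov
  obtain ⟨V, hVo, hVc, hVU, hVn⟩ := h (Option ι) (fun o => o.elim Fᶜ U) (by
    rintro (_ | i)
    · exact hF.isOpen_compl
    · exact hU i) (by
    intro x hx
    by_cases hxF : x ∈ F
    · obtain ⟨i, hi⟩ := Set.mem_iUnion.1 (hcov hxF)
      exact Set.mem_iUnion.2 ⟨some i, hi⟩
    · exact Set.mem_iUnion.2 ⟨none, hxF⟩)
  refine ⟨fun i => V (some i), fun i => hVo _, ?_, fun i => hVU (some i), ?_⟩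
  · intro x hx
    obtain ⟨o, ho⟩ := Set.mem_iUnion.1 (hVc (hFF hx))
    rcases o with _ | i
    · exact absurd hx (hVU none ho)
    · exact Set.mem_iUnion.2 ⟨i, ho⟩
  · intro x hx
    refine le_trans ?_ (hVn x (hFF hx))
    haveI : Finite {k : Option ι // x ∈ V k} := Subtype.finite
    refine Nat.card_le_card_of_injective
      (fun i : {i // x ∈ V (some i)} => (⟨some i.1, i.2⟩ : {k : Option ι // x ∈ V k})) ?_
    intro a b hab
    apply Subtype.ext
    have := congrArg Subtype.val hab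
    exact Option.some_injective _ this

/-- finite closed sum theorem: one step -/
theorem relDim_step {X : Type} [TopologicalSpace X] {n : ℕ} {F : Set X} (hF : IsClosed F)
    (h : RelDim F n) (ι : Type) [Finite ι] (U : ι → Set X) (hU : ∀ i, IsOpen (U i)) :
    ∃ W : ι → Set X, (∀ i, IsOpen (W i)) ∧ (F ⊆ ⋃ i, U i → (⋃ i, U i) ⊆ ⋃ i, W i) ∧
      (∀ i, W i ⊆ U i) ∧ (F ⊆ ⋃ i, U i → ∀ x ∈ F, Nat.card {i // x ∈ W i} ≤ n + 1) := by
  classical
  by_cases hc : F ⊆ ⋃ i, U i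
  · obtain ⟨V, hVo, hVc, hVU, hVn⟩ := h ι U hU hc
    refine ⟨fun i => U i \ (F \ V i), ?_, ?_, fun i => Set.diff_subset, ?_⟩
    · intro i
      exact (hU i).sdiff (by
        rw [Set.diff_eq]
        exact hF.inter (hVo i).isClosed_compl)
    · intro _ x hx
      by_cases hxF : x ∈ F
      · obtain ⟨i, hi⟩ := Set.mem_iUnion.1 (hVc hxF)
        exact Set.mem_iUnion.2 ⟨i, hVU i hi, fun hh => hh.2 hi⟩
      · obtain ⟨i, hi⟩ := Set.mem_iUnion.1 hx
        exact Set.mem_iUnion.2 ⟨i, hi, fun hh => hxF hh.1⟩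
    · intro _ x hx
      refine le_trans ?_ (hVn x hx)
      haveI : Finite {k // x ∈ V k} := Subtype.finite
      refine Nat.card_le_card_of_injective
        (fun i : {i // x ∈ U i \ (F \ V i)} => (⟨i.1, by
          by_contra hcon
          exact i.2.2 ⟨hx, hcon⟩⟩ : {k // x ∈ V k})) ?_
      intro a b hab
      apply Subtype.ext
      exact congrArg (fun z : {k // x ∈ V k} => z.1) hab
  · exact ⟨U, hU, fun h => absurd h hc, fun i => le_rfl, fun h => absurd h hc⟩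

/-- finite closed sum theorem -/
theorem relDim_iUnion_finset {X : Type} [TopologicalSpace X] {n : ℕ} {γ : Type}
    (s : Finset γ) (F : γ → Set X) (hF : ∀ c ∈ s, IsClosed (F c)) (h : ∀ c ∈ s, RelDim (F c) n)
    (ι : Type) [Finite ι] (U : ι → Set X) (hU : ∀ i, IsOpen (U i))
    (hcov : (⋃ c ∈ s, F c) ⊆ ⋃ i, U i) :
    ∃ W : ι → Set X, (∀ i, IsOpen (W i)) ∧ (⋃ i, U i) ⊆ (⋃ i, W i) ∧
      (∀ i, W i ⊆ U i) ∧ ∀ c ∈ s, ∀ x ∈ F c, Nat.card {i // x ∈ W i} ≤ n + 1 := by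
  classical
  induction s using Finset.induction_on with
  | empty => exact ⟨U, hU, le_rfl, fun i => le_rfl, by simp⟩
  | insert a s ha ih =>
    obtain ⟨W, hWo, hWc, hWU, hWn⟩ := ih (fun c hc => hF c (Finset.mem_insert_of_mem hc))
      (fun c hc => h c (Finset.mem_insert_of_mem hc)) (by
        refine subset_trans ?_ hcov
        intro x hx
        simp only [Set.mem_iUnion, Finset.mem_insert] at hx ⊢
        obtain ⟨c, hc, hx⟩ := hx
        exact ⟨c, Or.inr hc, hx⟩)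
    have hFa : F a ⊆ ⋃ i, W i := by
      refine subset_trans ?_ (hcov.trans hWc)
      intro x hx
      simp only [Set.mem_iUnion, Finset.mem_insert]
      exact ⟨a, Or.inl rfl, hx⟩
    obtain ⟨W', hWo', hWc', hWU', hWn'⟩ := relDim_step (hF a (Finset.mem_insert_self _ _))
      (h a (Finset.mem_insert_self _ _)) ι W hWo
    refine ⟨W', hWo', hWc.trans (hWc' hFa), fun i => (hWU' i).trans (hWU i), ?_⟩
    intro c hc x hx
    rcases Finset.mem_insert.1 hc with rfl | hc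
    · exact hWn' hFa x hx
    · refine le_trans ?_ (hWn c hc x hx)
      haveI : Finite {k // x ∈ W k} := Subtype.finite
      refine Nat.card_le_card_of_injective
        (fun i : {i // x ∈ W' i} => (⟨i.1, hWU' _ i.2⟩ : {k // x ∈ W k})) ?_
      intro a b hab
      apply Subtype.ext
      exact congrArg (fun z : {k // x ∈ W k} => z.1) hab

theorem relDim_iUnion {X : Type} [TopologicalSpace X] {n : ℕ} {γ : Type} [Finite γ]
    (F : γ → Set X) (hF : ∀ c, IsClosed (F c)) (h : ∀ c, RelDim (F c) n) :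
    RelDim (⋃ c, F c) n := by
  classical
  intro ι _ U hU hcov
  haveI := Fintype.ofFinite γ
  obtain ⟨W, hWo, hWc, hWU, hWn⟩ := relDim_iUnion_finset (Finset.univ : Finset γ) F
    (fun c _ => hF c) (fun c _ => h c) ι U hU (by simpa using hcov)
  refine ⟨W, hWo, hcov.trans hWc, hWU, ?_⟩
  intro x hx
  obtain ⟨c, hc⟩ := Set.mem_iUnion.1 hx
  exact hWn c (Finset.mem_univ _) x hc

/-- transport of the relative dimension along inducing maps -/
theorem RelDim.image {Z X : Type} [TopologicalSpace Z] [TopologicalSpace X] {n : ℕ}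
    {e : Z → X} (he : IsInducing e) {K : Set Z} (h : RelDim K n) : RelDim (e '' K) n := by
  intro ι _ U hU hcov
  obtain ⟨V, hVo, hVc, hVU, hVn⟩ := h ι (fun i => e ⁻¹' U i)
    (fun i => (hU i).preimage he.continuous) (by
      intro z hz
      obtain ⟨i, hi⟩ := Set.mem_iUnion.1 (hcov ⟨z, hz, rfl⟩)
      exact Set.mem_iUnion.2 ⟨i, hi⟩)
  have hO : ∀ i, ∃ O : Set X, IsOpen O ∧ e ⁻¹' O = V i := fun i =>
    he.isOpen_iff.1 (hVo i)
  choose O hOo hOV using hO
  refine ⟨fun i => O i ∩ U i, fun i => (hOo i).inter (hU i), ?_, fun i => Set.inter_subset_right,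
    ?_⟩
  · rintro _ ⟨z, hz, rfl⟩
    obtain ⟨i, hi⟩ := Set.mem_iUnion.1 (hVc hz)
    refine Set.mem_iUnion.2 ⟨i, ?_, hVU i hi⟩
    have : z ∈ e ⁻¹' O i := by rw [hOV i]; exact hi
    exact this
  · rintro _ ⟨z, hz, rfl⟩
    refine le_trans ?_ (hVn z hz)
    haveI : Finite {k // z ∈ V k} := Subtype.finite
    refine Nat.card_le_card_of_injective
      (fun i : {i // e z ∈ O i ∩ U i} => (⟨i.1, by
        rw [← hOV i.1]; exact i.2.1⟩ : {k // z ∈ V k})) ?_
    intro a b hab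
    apply Subtype.ext
    exact congrArg (fun z : {k // _ ∈ V k} => z.1) hab

theorem RelDim.of_image {Z X : Type} [TopologicalSpace Z] [TopologicalSpace X] {n : ℕ}
    {e : Z → X} (he : IsInducing e) {K : Set Z} (h : RelDim (e '' K) n) : RelDim K n := by
  intro ι _ U hU hcov
  have hO : ∀ i, ∃ O : Set X, IsOpen O ∧ e ⁻¹' O = U i := fun i =>
    he.isOpen_iff.1 (hU i)
  choose O hOo hOU using hO
  obtain ⟨V, hVo, hVc, hVU, hVn⟩ := h ι O hOo (by
      rintro _ ⟨z, hz, rfl⟩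
      obtain ⟨i, hi⟩ := Set.mem_iUnion.1 (hcov hz)
      refine Set.mem_iUnion.2 ⟨i, ?_⟩
      have : z ∈ e ⁻¹' O i := by rw [hOU i]; exact hi
      exact this)
  refine ⟨fun i => e ⁻¹' V i, fun i => (hVo i).preimage he.continuous, ?_, ?_, ?_⟩
  · intro z hz
    obtain ⟨i, hi⟩ := Set.mem_iUnion.1 (hVc ⟨z, hz, rfl⟩)
    exact Set.mem_iUnion.2 ⟨i, hi⟩
  · intro i
    rw [← hOU i]
    exact Set.preimage_mono (hVU i)
  · intro z hz
    exact hVn (e z) ⟨z, hz, rfl⟩

/-- union of a family of sets that are separated by pairwise disjoint open sets -/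
theorem relDim_iUnion_of_separated {X : Type} [TopologicalSpace X] {n : ℕ} {γ : Type}
    (F O : γ → Set X) (hO : ∀ c, IsOpen (O c)) (hFO : ∀ c, F c ⊆ O c)
    (hd : ∀ c c', c ≠ c' → Disjoint (O c) (O c')) (h : ∀ c, RelDim (F c) n) :
    RelDim (⋃ c, F c) n := by
  intro ι _ U hU hcov
  have hex : ∀ c, ∃ V : ι → Set X, (∀ i, IsOpen (V i)) ∧ F c ⊆ ⋃ i, V i ∧ (∀ i, V i ⊆ U i) ∧
      ∀ x ∈ F c, Nat.card {i // x ∈ V i} ≤ n + 1 := fun c =>
    h c ι U hU ((Set.subset_iUnion F c).trans hcov)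
  choose V hVo hVc hVU hVn using hex
  refine ⟨fun i => ⋃ c, V c i ∩ O c, fun i => isOpen_iUnion fun c => (hVo c i).inter (hO c),
    ?_, ?_, ?_⟩
  · intro x hx
    obtain ⟨c, hc⟩ := Set.mem_iUnion.1 hx
    obtain ⟨i, hi⟩ := Set.mem_iUnion.1 (hVc c hc)
    exact Set.mem_iUnion.2 ⟨i, Set.mem_iUnion.2 ⟨c, hi, hFO c hc⟩⟩
  · intro i x hx
    obtain ⟨c, hc⟩ := Set.mem_iUnion.1 hx
    exact hVU c i hc.1
  · intro x hx
    obtain ⟨c, hc⟩ := Set.mem_iUnion.1 hx
    refine le_trans ?_ (hVn c x hc)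
    haveI : Finite {k // x ∈ V c k} := Subtype.finite
    have key : ∀ i, x ∈ ⋃ c, V c i ∩ O c → x ∈ V c i := by
      intro i hi
      obtain ⟨c', hc'⟩ := Set.mem_iUnion.1 hi
      by_cases hcc : c = c'
      · rw [hcc]; exact hc'.1
      · exact absurd hc'.2 (Set.disjoint_left.1 (hd c c' hcc) (hFO c hc))
    refine Nat.card_le_card_of_injective
      (fun i : {i // x ∈ ⋃ c, V c i ∩ O c} => (⟨i.1, key i.1 i.2⟩ : {k // x ∈ V c k})) ?_
    intro a b hab
    apply Subtype.ext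
    exact congrArg (fun z : {k // x ∈ V c k} => z.1) hab

end Pool.Agent.H816R3
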