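import Pool.Agent.H816R3.Psi
import Pool.Agent.H816R3.Colour

set_option autoImplicit false

open Set Filter Topology
open scoped BoundedContinuousFunction Pointwise

namespace Pool.Agent.H816R3

variable {G : Type} [TopologicalSpace G] [Group G] [IsTopologicalGroup G]
  [LocallyCompactSpace G] [T2Space G]

/-- one half: `dim β_G G ≤ dim G` -/
theorem dimLE_amb_of_dimLE {n : ℕ} (h : DimLE G n) : DimLE (Amb G) n := by
  obtain ⟨I, K, N, m, c, hK, hN, hKN, hcov, hsep⟩ := exists_decomposition (G := G)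
  have hKcomp : CompactSpace K := isCompact_iff_compactSpace.1 hK
  -- dimension of K
  have hKdim : RelDim (Set.univ : Set K) n := by
    have h1 : RelDim K n := (relDim_univ_of_dimLE h).mono hK.isClosed (Set.subset_univ _)
    have h2 : RelDim ((Subtype.val : K → G) '' Set.univ) n := by
      rw [Set.image_univ, Subtype.range_coe]; exact h1
    exact h2.of_image IsInducing.subtypeVal
  -- the pieces
  let J : Fin m → Type := fun a => {x : G // x ∈ I ∧ c x = a}
  let xx : ∀ a, J a → G := fun a x => x.1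
  have hsep' : ∀ a, ∀ i j : J a, ∀ g, g * (xx a i)⁻¹ ∈ N → g * (xx a j)⁻¹ ∈ N → i = j := by
    intro a i j g hi hj
    exact Subtype.ext (hsep i.1 i.2.1 j.1 j.2.1 (i.2.2.trans j.2.2.symm) g hi hj)
  have hinj : ∀ a, Function.Injective (Psi (xx a) K) := fun a =>
    injective_psi (xx a) K N hK hN hKN (hsep' a)
  have hemb : ∀ a, IsClosedEmbedding (Psi (xx a) K) := fun a =>
    (continuous_psi (xx a) K).isClosedEmbedding (hinj a)
  have hpiece : ∀ a, RelDim (Psi (xx a) K '' Set.univ) n := fun a =>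
    (relDim_prod hKdim).image (hemb a).isInducing
  have hclosed : ∀ a, IsClosed (Psi (xx a) K '' Set.univ) := fun a =>
    (hemb a).isClosedMap _ isClosed_univ
  have hunion : (⋃ a, Psi (xx a) K '' Set.univ) = Set.univ := by
    have h1 : IsClosed (⋃ a, Psi (xx a) K '' Set.univ) := isClosed_iUnion_of_finite hclosed
    have h2 : Set.range (ev : G → Amb G) ⊆ ⋃ a, Psi (xx a) K '' Set.univ := by
      rintro _ ⟨g, rfl⟩
      obtain ⟨x, hx, hgx⟩ := hcov g
      refine Set.mem_iUnion.2 ⟨c x, ?_⟩
      refine ⟨(⟨g * x⁻¹, hgx⟩, pure ⟨x, hx, rfl⟩), trivial, ?_⟩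
      apply amb_ext
      intro f
      have h3 := tendsto_psi (xx (c x)) K ⟨g * x⁻¹, hgx⟩ (pure ⟨x, hx, rfl⟩) f
      have h4 : Tendsto (fun i : J (c x) => f.1 (g * x⁻¹ * xx (c x) i))
          ((pure ⟨x, hx, rfl⟩ : Ultrafilter (J (c x))) : Filter (J (c x))) (𝓝 (f.1 g)) := by
        have h5 : f.1 g = (fun i : J (c x) => f.1 (g * x⁻¹ * xx (c x) i)) ⟨x, hx, rfl⟩ := by
          simp [xx]
        rw [h5]
        exact tendsto_pure_nhds _ _
      exact tendsto_nhds_unique h3 h4
    apply Set.eq_univ_of_univ_subset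
    rw [← dense_ev]
    exact closure_minimal h2 h1
  apply dimLE_of_relDim_univ
  rw [← hunion]
  exact relDim_iUnion _ hclosed hpiece

/-- other half: `dim G ≤ dim β_G G` -/
theorem dimLE_of_dimLE_amb {n : ℕ} (h : DimLE (Amb G) n) : DimLE G n := by
  obtain ⟨I, K, N, m, c, hK, hN, hKN, hcov, hsep⟩ := exists_decomposition (G := G)
  -- every compact subset
  have hcompact : ∀ C : Set G, IsCompact C → RelDim C n := by
    intro C hC
    have hCc : CompactSpace C := isCompact_iff_compactSpace.1 hC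
    have hcont : Continuous (fun g : C => (ev g.1 : Amb G)) :=
      continuous_ev.comp continuous_subtype_val
    have hinj : Function.Injective (fun g : C => (ev g.1 : Amb G)) := fun a b hab =>
      Subtype.ext (injective_ev hab)
    have hemb : IsClosedEmbedding (fun g : C => (ev g.1 : Amb G)) :=
      hcont.isClosedEmbedding hinj
    have h1 : RelDim ((fun g : C => (ev g.1 : Amb G)) '' Set.univ) n :=
      (relDim_univ_of_dimLE h).mono (hemb.isClosedMap _ isClosed_univ) (Set.subset_univ _)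
    have h2 : RelDim (Set.univ : Set C) n := h1.of_image hemb.isInducing
    have h3 := h2.image (IsInducing.subtypeVal (t := C))
    rwa [Set.image_univ, Subtype.range_coe] at h3
  let J : Fin m → Type := fun a => {x : G // x ∈ I ∧ c x = a}
  let F : Fin m → Set G := fun a => ⋃ x : J a, (fun g => g * x.1⁻¹) ⁻¹' K
  have hFpre : ∀ x : G, IsCompact ((fun g : G => g * x⁻¹) ⁻¹' K) := by
    intro x
    have h1 : (fun g : G => g * x⁻¹) ⁻¹' K = (fun g : G => g * x) '' K := by
      ext g
      constructor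
      · intro hg
        exact ⟨g * x⁻¹, hg, by simp⟩
      · rintro ⟨k, hk, rfl⟩
        simpa using hk
    rw [h1]
    exact hK.image (by fun_prop)
  have hFdim : ∀ a, RelDim (F a) n := by
    intro a
    refine relDim_iUnion_of_separated (fun x : J a => (fun g => g * x.1⁻¹) ⁻¹' K)
      (fun x : J a => (fun g => g * x.1⁻¹) ⁻¹' N) ?_ ?_ ?_ ?_
    · intro x
      exact hN.preimage (by fun_prop)
    · intro x
      exact Set.preimage_mono hKN
    · intro x y hxy
      rw [Set.disjoint_left]
      intro g hgx hgy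
      exact hxy (Subtype.ext (hsep x.1 x.2.1 y.1 y.2.1 (x.2.2.trans y.2.2.symm) g hgx hgy))
    · intro x
      exact hcompact _ (hFpre x.1)
  have hFclosed : ∀ a, IsClosed (F a) := by
    intro a
    obtain ⟨U, hU, hUK⟩ := compact_open_separated_mul_left hK hN hKN
    have hUinv : U⁻¹ ∈ 𝓝 (1 : G) := by
      have h1 : Tendsto (fun g : G => g⁻¹) (𝓝 1) (𝓝 1) := by
        simpa using (continuous_inv (G := G)).tendsto 1
      exact h1 hU
    refine LocallyFinite.isClosed_iUnion ?_ (fun x => (hFpre x.1).isClosed)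
    intro g
    refine ⟨(fun h => h * g⁻¹) ⁻¹' U⁻¹, ?_, ?_⟩
    · have h1 : Tendsto (fun h : G => h * g⁻¹) (𝓝 g) (𝓝 1) := by
        have : Continuous fun h : G => h * g⁻¹ := by fun_prop
        simpa using this.tendsto g
      exact h1 hUinv
    · apply Set.Subsingleton.finite
      have key : ∀ x : J a, (((fun g => g * x.1⁻¹) ⁻¹' K) ∩ ((fun h => h * g⁻¹) ⁻¹' U⁻¹)).Nonempty →
          g * x.1⁻¹ ∈ N := by
        rintro x ⟨h, h1, h2⟩
        apply hUK
        refine ⟨(h * g⁻¹)⁻¹, h2, h * x.1⁻¹, h1, ?_⟩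
        group
      intro x hx y hy
      exact Subtype.ext (hsep x.1 x.2.1 y.1 y.2.1 (x.2.2.trans y.2.2.symm) g (key x hx) (key y hy))
  have hunion : (⋃ a, F a) = Set.univ := by
    refine Set.eq_univ_of_forall fun g => ?_
    obtain ⟨x, hx, hgx⟩ := hcov g
    exact Set.mem_iUnion.2 ⟨c x, Set.mem_iUnion.2 ⟨⟨x, hx, rfl⟩, hgx⟩⟩
  apply dimLE_of_relDim_univ
  rw [← hunion]
  exact relDim_iUnion _ hFclosed hFdim

end Pool.Agent.H816R3
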