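import Pool.Agent.H816R3.Dim

set_option autoImplicit false

open Set Filter Topology

namespace Pool.Agent.H816R3

/-- The product of a compact Hausdorff space of dimension at most `n` with a profinite space has
dimension at most `n`. -/
theorem relDim_prod {K Y : Type} [TopologicalSpace K] [CompactSpace K] [T2Space K]
    [TopologicalSpace Y] [CompactSpace Y] [T2Space Y] [TotallyDisconnectedSpace Y] {n : ℕ}
    (h : RelDim (Set.univ : Set K) n) : RelDim (Set.univ : Set (K × Y)) n := by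
  classical
  intro ι _ U hU hcov
  -- local step
  have hloc : ∀ y : Y, ∃ C : Set Y, IsClopen C ∧ y ∈ C ∧ ∃ V : ι → Set K,
      (∀ i, IsOpen (V i)) ∧ Set.univ ⊆ ⋃ i, V i ∧ (∀ i, V i ×ˢ C ⊆ U i) ∧
      ∀ x, Nat.card {i // x ∈ V i} ≤ n + 1 := by
    intro y
    obtain ⟨V', hV'c, hV'o, hV'U⟩ := exists_iUnion_eq_closure_subset
      (u := fun i => {k : K | (k, y) ∈ U i})
      (fun i => (hU i).preimage (by fun_prop)) (fun x => Set.toFinite _) (by
        refine Set.eq_univ_of_forall fun k => ?_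
        obtain ⟨i, hi⟩ := Set.mem_iUnion.1 (hcov (Set.mem_univ (k, y)))
        exact Set.mem_iUnion.2 ⟨i, hi⟩)
    obtain ⟨V, hVo, hVc, hVV, hVn⟩ := h ι V' hV'o hV'c.ge
    have htube : ∀ i, ∃ O : Set Y, IsOpen O ∧ y ∈ O ∧ V i ×ˢ O ⊆ U i := by
      intro i
      obtain ⟨u, v, _, hv, hsu, htv, huv⟩ := generalized_tube_lemma
        (isClosed_closure (s := V' i)).isCompact (isCompact_singleton (x := y)) (hU i) (by
          rintro ⟨k, y'⟩ ⟨hk, hy'⟩
          simp only [Set.mem_singleton_iff] at hy'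
          subst hy'
          exact hV'U i hk)
      refine ⟨v, hv, htv rfl, ?_⟩
      refine subset_trans (Set.prod_mono ?_ le_rfl) huv
      exact (hVV i).trans (subset_closure.trans hsu)
    choose O hOo hyO hOU using htube
    obtain ⟨C, hC, hyC, hCO⟩ := compact_exists_isClopen_in_isOpen
      (isOpen_iInter_of_finite hOo) (Set.mem_iInter.2 hyO)
    refine ⟨C, hC, hyC, V, hVo, hVc, fun i => ?_, fun x => hVn x trivial⟩
    exact (Set.prod_mono le_rfl (hCO.trans (Set.iInter_subset _ i))).trans (hOU i)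
  choose C hC hyC V hVo hVc hVU hVn using hloc
  -- finite subcover
  obtain ⟨t, ht⟩ := isCompact_univ.elim_finite_subcover C (fun y => (hC y).isOpen)
    (fun y _ => Set.mem_iUnion.2 ⟨y, hyC y⟩)
  obtain ⟨m, ⟨e⟩⟩ : ∃ m : ℕ, Nonempty (Fin m ≃ {y // y ∈ t}) :=
    ⟨t.card, ⟨t.equivFin.symm⟩⟩
  -- disjointification
  let D : Fin m → Set Y := fun a => C (e a) \ ⋃ b, ⋃ (_ : b < a), C (e b)
  have hDo : ∀ a, IsOpen (D a) := by
    intro a
    refine (hC _).isOpen.sdiff ?_
    exact isClosed_iUnion_of_finite fun b => isClosed_iUnion_of_finite fun _ => (hC _).isClosed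
  have hDC : ∀ a, D a ⊆ C (e a) := fun a x hx => hx.1
  have hDcov : ∀ y : Y, ∃ a, y ∈ D a := by
    intro y
    have hy : ∃ a : Fin m, y ∈ C (e a) := by
      obtain ⟨z, hz⟩ := Set.mem_iUnion.1 (ht (Set.mem_univ y))
      obtain ⟨hz1, hz2⟩ := Set.mem_iUnion.1 hz
      exact ⟨e.symm ⟨z, hz1⟩, by simpa using hz2⟩
    obtain ⟨a, ha, hmin⟩ := WellFounded.has_min (wellFounded_lt (α := Fin m))
      {a | y ∈ C (e a)} hy
    refine ⟨a, ha, ?_⟩
    intro hcon
    simp only [Set.mem_iUnion] at hcon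
    obtain ⟨b, hb, hyb⟩ := hcon
    exact hmin b hyb hb
  have hDd : ∀ a b, ∀ y, y ∈ D a → y ∈ D b → a = b := by
    intro a b y ha hb
    rcases lt_trichotomy a b with hab | hab | hab
    · exfalso
      apply hb.2
      simp only [Set.mem_iUnion]
      exact ⟨a, hab, ha.1⟩
    · exact hab
    · exfalso
      apply ha.2
      simp only [Set.mem_iUnion]
      exact ⟨b, hab, hb.1⟩
  refine ⟨fun i => ⋃ a, V (e a) i ×ˢ D a, ?_, ?_, ?_, ?_⟩
  · intro i
    exact isOpen_iUnion fun a => (hVo _ i).prod (hDo a)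
  · rintro ⟨k, y⟩ _
    obtain ⟨a, ha⟩ := hDcov y
    obtain ⟨i, hi⟩ := Set.mem_iUnion.1 (hVc (e a) (Set.mem_univ k))
    exact Set.mem_iUnion.2 ⟨i, Set.mem_iUnion.2 ⟨a, hi, ha⟩⟩
  · rintro i ⟨k, y⟩ hky
    obtain ⟨a, ha⟩ := Set.mem_iUnion.1 hky
    exact hVU (e a) i ⟨ha.1, hDC a ha.2⟩
  · rintro ⟨k, y⟩ _
    obtain ⟨a, ha⟩ := hDcov y
    refine le_trans ?_ (hVn (e a) k)
    have : Finite {i // k ∈ V (e a) i} := Subtype.finite
    refine Nat.card_le_card_of_injective
      (fun i : {i // (k, y) ∈ ⋃ a, V (e a) i ×ˢ D a} => (⟨i.1, by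
        obtain ⟨b, hb⟩ := Set.mem_iUnion.1 i.2
        rw [hDd a b y ha hb.2]
        exact hb.1⟩ : {i // k ∈ V (e a) i})) ?_
    intro a b hab
    apply Subtype.ext
    exact congrArg (fun z : {i // k ∈ V (e _) i} => z.1) hab

end Pool.Agent.H816R3
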