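import Pool.Agent.H816R3.Bump

set_option autoImplicit false

open Set Filter Topology
open scoped BoundedContinuousFunction

namespace Pool.Agent.H816R3

variable {G : Type} [TopologicalSpace G] [Group G] [IsTopologicalGroup G]

/-- The canonical map `K × βI → β_G G`. -/
noncomputable def Psi {I : Type} (x : I → G) (K : Set G) (p : K × Ultrafilter I) : Amb G :=
  Ultrafilter.extend (fun i => ev (p.1.1 * x i)) p.2

theorem tendsto_psi {I : Type} (x : I → G) (K : Set G) (k : K) (u : Ultrafilter I) (f : RUC G) :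
    Tendsto (fun i => f.1 (k.1 * x i)) u (𝓝 (Psi x K (k, u) f)) := by
  have h1 : (↑(u.map (fun i => ev (k.1 * x i))) : Filter (Amb G)) ≤ 𝓝 (Psi x K (k, u)) :=
    ultrafilter_extend_eq_iff.1 rfl
  have h2 : Tendsto (fun i => ev (k.1 * x i)) u (𝓝 (Psi x K (k, u))) := h1
  exact ((continuous_apply_amb f).tendsto _).comp h2

theorem continuous_psi_right {I : Type} (x : I → G) (K : Set G) (k : K) :
    Continuous fun u => Psi x K (k, u) :=
  continuous_ultrafilter_extend (fun i => (ev (k.1 * x i) : Amb G))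

theorem continuous_psi {I : Type} (x : I → G) (K : Set G) : Continuous (Psi x K) := by
  apply continuous_to_amb
  intro f
  rw [continuous_iff_continuousAt]
  rintro ⟨k0, u0⟩
  rw [ContinuousAt, Metric.tendsto_nhds]
  intro ε hε
  obtain ⟨W, hW, hfW⟩ := f.2 (ε / 2) (by positivity)
  have h1 : ∀ᶠ p : K × Ultrafilter I in 𝓝 (k0, u0), p.1.1 * k0.1⁻¹ ∈ W := by
    have hc : Continuous fun p : K × Ultrafilter I => p.1.1 * k0.1⁻¹ := by fun_prop
    have h2 := hc.tendsto (k0, u0)
    simp only [mul_inv_cancel] at h2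
    exact h2 hW
  have h2 : ∀ᶠ p : K × Ultrafilter I in 𝓝 (k0, u0),
      dist (Psi x K (k0, p.2) f) (Psi x K (k0, u0) f) < ε / 2 := by
    have hc : Continuous fun p : K × Ultrafilter I => Psi x K (k0, p.2) f :=
      (continuous_apply_amb f).comp ((continuous_psi_right x K k0).comp continuous_snd)
    exact Metric.tendsto_nhds.1 (hc.tendsto (k0, u0)) _ (by positivity)
  filter_upwards [h1, h2] with p hp1 hp2
  obtain ⟨k, u⟩ := p
  have h3 : dist (Psi x K (k, u) f) (Psi x K (k0, u) f) ≤ ε / 2 := by
    have h4 := (tendsto_psi x K k u f).dist (tendsto_psi x K k0 u f)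
    refine le_of_tendsto h4 (Eventually.of_forall fun i => ?_)
    have h5 := hfW _ hp1 (k0.1 * x i)
    rw [dist_eq_norm]
    have h6 : k.1 * k0.1⁻¹ * (k0.1 * x i) = k.1 * x i := by group
    rw [h6] at h5
    exact h5.le
  calc dist (Psi x K (k, u) f) (Psi x K (k0, u0) f)
      ≤ dist (Psi x K (k, u) f) (Psi x K (k0, u) f)
        + dist (Psi x K (k0, u) f) (Psi x K (k0, u0) f) := dist_triangle _ _ _
    _ < ε := by
      have := hp2
      simp only at this
      linarith

theorem injective_psi [T2Space G] [LocallyCompactSpace G] {I : Type} (x : I → G) (K N : Set G)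
    (hK : IsCompact K) (hNo : IsOpen N) (hKN : K ⊆ N)
    (hsep : ∀ i j g, g * (x i)⁻¹ ∈ N → g * (x j)⁻¹ ∈ N → i = j) :
    Function.Injective (Psi x K) := by
  rintro ⟨k, u⟩ ⟨k', u'⟩ h
  have hu : u = u' := by
    by_contra hne
    have h1 : ∃ S : Set I, S ∈ u ∧ S ∉ u' := by
      by_contra hcon
      push Not at hcon
      apply hne
      apply Ultrafilter.eq_of_le
      intro s hs
      by_contra hs'
      have h2 := Ultrafilter.compl_mem_iff_notMem.2 hs'
      have h3 := hcon _ h2
      exact Ultrafilter.compl_mem_iff_notMem.1 h3 hs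
    obtain ⟨S, hS, hS'⟩ := h1
    obtain ⟨φ, hφ1, hφ0, hφc, hφ01⟩ := exists_continuous_one_zero_of_isCompact hK
      hNo.isClosed_compl (Set.disjoint_left.2 fun g hg hg' => hg' (hKN hg))
    obtain ⟨f, hf⟩ := exists_bump x S φ hφ01 hφc
    have h1 := tendsto_psi x K k u f
    have h2 := tendsto_psi x K k' u' f
    rw [h] at h1
    have h3 : Tendsto (fun i => f.1 (k.1 * x i)) u (𝓝 1) := by
      refine tendsto_const_nhds.congr' ?_
      filter_upwards [hS] with i hi
      rw [hf, (bump_value x S φ hφ01 N (fun g hg => hφ0 hg) hsep k.1 (hKN k.2) i).1 hi,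
        hφ1 k.2]
      simp
    have h4 : Tendsto (fun i => f.1 (k'.1 * x i)) u' (𝓝 0) := by
      refine tendsto_const_nhds.congr' ?_
      have hS'' : Sᶜ ∈ u' := Ultrafilter.compl_mem_iff_notMem.2 hS'
      filter_upwards [hS''] with i hi
      rw [hf, (bump_value x S φ hφ01 N (fun g hg => hφ0 hg) hsep k'.1 (hKN k'.2) i).2 hi]
      simp
    have h5 := tendsto_nhds_unique h1 h3
    have h6 := tendsto_nhds_unique h2 h4
    rw [h5] at h6
    exact one_ne_zero h6
  subst hu
  have hk : k = k' := by
    by_contra hne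
    have hne' : k.1 ≠ k'.1 := fun h => hne (Subtype.ext h)
    obtain ⟨φ, hφ1, hφ0, hφc, hφ01⟩ := exists_continuous_one_zero_of_isCompact
      (isCompact_singleton (x := k.1)) (hNo.isClosed_compl.union (isClosed_singleton (x := k'.1)))
      (by
        rw [Set.disjoint_left]
        rintro g hg (hg' | hg')
        · rw [Set.mem_singleton_iff] at hg
          subst hg
          exact hg' (hKN k.2)
        · rw [Set.mem_singleton_iff] at hg hg'
          exact hne' (hg.symm.trans hg'))
    obtain ⟨f, hf⟩ := exists_bump x Set.univ φ hφ01 hφc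
    have h1 := tendsto_psi x K k u f
    have h2 := tendsto_psi x K k' u f
    rw [h] at h1
    have h3 : Tendsto (fun i => f.1 (k.1 * x i)) u (𝓝 1) := by
      refine tendsto_const_nhds.congr' (Eventually.of_forall fun i => ?_)
      simp only
      rw [hf, (bump_value x Set.univ φ hφ01 N (fun g hg => hφ0 (Or.inl hg)) hsep k.1
        (hKN k.2) i).1 trivial, hφ1 rfl]
      simp
    have h4 : Tendsto (fun i => f.1 (k'.1 * x i)) u (𝓝 0) := by
      refine tendsto_const_nhds.congr' (Eventually.of_forall fun i => ?_)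
      simp only
      rw [hf, (bump_value x Set.univ φ hφ01 N (fun g hg => hφ0 (Or.inl hg)) hsep k'.1
        (hKN k'.2) i).1 trivial, hφ0 (Or.inr rfl)]
      simp
    have h5 := tendsto_nhds_unique h1 h3
    have h6 := tendsto_nhds_unique h2 h4
    rw [h5] at h6
    exact one_ne_zero h6
  rw [hk]

theorem injective_ev [T2Space G] [LocallyCompactSpace G] :
    Function.Injective (ev : G → Amb G) := by
  intro a b h
  by_contra hne
  obtain ⟨φ, hφ1, hφ0, hφc, hφ01⟩ := exists_continuous_one_zero_of_isCompact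
      (isCompact_singleton (x := a)) (isClosed_singleton (x := b))
      (Set.disjoint_singleton.2 hne)
  obtain ⟨f, hf⟩ := exists_bump (I := Unit) (fun _ => (1 : G)) Set.univ φ hφ01 hφc
  have h1 := congrArg (fun ψ : Amb G => ψ f) h
  simp only [ev_apply] at h1
  rw [hf, hf] at h1
  have h2 : ∀ g : G, (⨆ i : (Set.univ : Set Unit), φ (g * ((fun _ => (1 : G)) i.1)⁻¹)) = φ g := by
    intro g
    have : Nonempty (Set.univ : Set Unit) := ⟨⟨(), trivial⟩⟩
    simp
  rw [h2, h2, hφ1 rfl, hφ0 rfl] at h1
  simp at h1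

end Pool.Agent.H816R3
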