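import Pool.Agent.H816R3.Prod

set_option autoImplicit false

open Set Filter Topology
open scoped BoundedContinuousFunction

namespace Pool.Agent.H816R3

section

variable (G : Type) [TopologicalSpace G] [Group G]

/-- The algebra of bounded right uniformly continuous functions. -/
def RUC : Subalgebra ℂ (G →ᵇ ℂ) where
  carrier := {f : G →ᵇ ℂ | ∀ ε : ℝ, 0 < ε → ∃ W ∈ nhds (1 : G), ∀ u ∈ W, ∀ x : G,
            ‖f (u * x) - f x‖ < ε}
  mul_mem' := by
    intro f g hf hg ε hε
    have hM : 0 < ‖f‖ + ‖g‖ + 1 := by positivity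
    obtain ⟨W, hW, hfW⟩ := hf (ε / 2 / (‖f‖ + ‖g‖ + 1)) (by positivity)
    obtain ⟨W', hW', hgW⟩ := hg (ε / 2 / (‖f‖ + ‖g‖ + 1)) (by positivity)
    refine ⟨W ∩ W', inter_mem hW hW', ?_⟩
    intro u hu x
    have h1 := hfW u hu.1 x
    have h2 := hgW u hu.2 x
    have h3 : (f * g) (u * x) - (f * g) x
        = f (u * x) * (g (u * x) - g x) + (f (u * x) - f x) * g x := by
      simp only [BoundedContinuousFunction.coe_mul, Pi.mul_apply]; ring
    rw [h3]
    have h4 : ‖f (u * x)‖ ≤ ‖f‖ + ‖g‖ + 1 := by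
      have := f.norm_coe_le_norm (u * x)
      have := norm_nonneg g
      linarith
    have h5 : ‖g x‖ ≤ ‖f‖ + ‖g‖ + 1 := by
      have := g.norm_coe_le_norm x
      have := norm_nonneg f
      linarith
    calc ‖f (u * x) * (g (u * x) - g x) + (f (u * x) - f x) * g x‖
        ≤ ‖f (u * x)‖ * ‖g (u * x) - g x‖ + ‖f (u * x) - f x‖ * ‖g x‖ := by
          refine (norm_add_le _ _).trans ?_
          rw [norm_mul, norm_mul]
      _ ≤ (‖f‖ + ‖g‖ + 1) * ‖g (u * x) - g x‖ + ‖f (u * x) - f x‖ * (‖f‖ + ‖g‖ + 1) := by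
          gcongr
      _ < (‖f‖ + ‖g‖ + 1) * (ε / 2 / (‖f‖ + ‖g‖ + 1))
            + (ε / 2 / (‖f‖ + ‖g‖ + 1)) * (‖f‖ + ‖g‖ + 1) := by
          gcongr
      _ = ε := by field_simp; ring
  add_mem' := by
    intro f g hf hg ε hε
    obtain ⟨W, hW, hfW⟩ := hf (ε / 2) (by positivity)
    obtain ⟨W', hW', hgW⟩ := hg (ε / 2) (by positivity)
    refine ⟨W ∩ W', inter_mem hW hW', ?_⟩
    intro u hu x
    have h1 := hfW u hu.1 x
    have h2 := hgW u hu.2 x
    have h3 : (f + g) (u * x) - (f + g) x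
        = (f (u * x) - f x) + (g (u * x) - g x) := by
      simp only [BoundedContinuousFunction.coe_add, Pi.add_apply]; ring
    rw [h3]
    refine (norm_add_le _ _).trans_lt ?_
    linarith
  algebraMap_mem' := by
    intro r ε hε
    refine ⟨Set.univ, univ_mem, ?_⟩
    intro u _ x
    have h3 : (algebraMap ℂ (G →ᵇ ℂ) r) (u * x) - (algebraMap ℂ (G →ᵇ ℂ) r) x = 0 := by
      simp [BoundedContinuousFunction.algebraMap_apply]
    rw [h3, norm_zero]
    exact hε

variable {G}

theorem mem_RUC {f : G →ᵇ ℂ} : f ∈ RUC G ↔ ∀ ε : ℝ, 0 < ε → ∃ W ∈ nhds (1 : G), ∀ u ∈ W,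
    ∀ x : G, ‖f (u * x) - f x‖ < ε := Iff.rfl

theorem isClosed_RUC : IsClosed (RUC G : Set (G →ᵇ ℂ)) := by
  rw [← closure_subset_iff_isClosed]
  intro g hg ε hε
  obtain ⟨f, hf, hfg⟩ := Metric.mem_closure_iff.1 hg (ε / 3) (by positivity)
  obtain ⟨W, hW, hfW⟩ := hf (ε / 3) (by positivity)
  refine ⟨W, hW, fun u hu x => ?_⟩
  have h1 := hfW u hu x
  rw [dist_eq_norm] at hfg
  have h2 : ‖g (u * x) - f (u * x)‖ < ε / 3 := by
    refine lt_of_le_of_lt ?_ hfg
    exact (g - f).norm_coe_le_norm (u * x)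
  have h3 : ‖g x - f x‖ < ε / 3 := by
    refine lt_of_le_of_lt ?_ hfg
    exact (g - f).norm_coe_le_norm x
  have h4 : g (u * x) - g x = (g (u * x) - f (u * x)) + (f (u * x) - f x) - (g x - f x) := by
    ring
  rw [h4]
  refine (norm_sub_le _ _).trans_lt ?_
  have := norm_add_le (g (u * x) - f (u * x)) (f (u * x) - f x)
  linarith

instance : CompleteSpace (RUC G) := isClosed_RUC.completeSpace_coe

/-- The spectrum of `RUC G`. -/
abbrev Amb (G : Type) [TopologicalSpace G] [Group G] : Type :=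
  ↥(WeakDual.characterSpace ℂ ↥(RUC G))

/-- The evaluation at a point, as a character. -/
noncomputable def ev (x : G) : Amb G :=
  ⟨StrongDual.toWeakDual
    ((BoundedContinuousFunction.evalCLM ℂ x).comp (RUC G).toSubmodule.subtypeL), by
    constructor
    · intro h
      have h1 := congrArg (fun φ : WeakDual ℂ (RUC G) => φ 1) h
      simp only [StrongDual.toWeakDual_apply] at h1
      change (1 : ℂ) = 0 at h1
      exact one_ne_zero h1
    · intro a b
      rfl⟩

@[simp] theorem ev_apply (x : G) (f : RUC G) : ev x f = f.1 x := rfl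

theorem continuous_apply_amb (f : RUC G) : Continuous fun φ : Amb G => φ f :=
  (WeakDual.eval_continuous f).comp continuous_subtype_val

theorem isInducing_amb : IsInducing (fun (φ : Amb G) (f : RUC G) => φ f) := by
  have h1 : IsInducing (fun (φ : WeakDual ℂ (RUC G)) (f : RUC G) => φ f) := ⟨rfl⟩
  exact h1.comp IsInducing.subtypeVal

theorem continuous_to_amb {Z : Type} [TopologicalSpace Z] {g : Z → Amb G}
    (h : ∀ f : RUC G, Continuous fun z => g z f) : Continuous g := by
  rw [isInducing_amb.continuous_iff]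
  exact continuous_pi h

theorem continuous_ev : Continuous (ev : G → Amb G) :=
  continuous_to_amb fun f => f.1.continuous

theorem amb_ext {φ ψ : Amb G} (h : ∀ f, φ f = ψ f) : φ = ψ := WeakDual.CharacterSpace.ext h

end

end Pool.Agent.H816R3
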